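import Pool.Agent.Y166.DP.Stm

/-! The dimension of the space of the sums of the products `a i * g i`. -/

set_option autoImplicit false
set_option linter.unusedSectionVars false

namespace Pool.Agent.Y434.DP

open FF Pool.Agent.W603.LV Pool.Agent.Y166.DP Module

section
variable {k K : Type} [Field k] [Field K] [Algebra k K] [CharZero k] [IsAlgClosed k] [IsFF k K]

/-- The divisor of the minimal orders. -/
noncomputable def modiv (g : Fin 3 → K) : Place k K →₀ ℤ :=
  Finsupp.ofSupportFinite (fun P => mo P g) (mo_supp g)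

theorem modiv_apply (g : Fin 3 → K) (P : Place k K) : modiv g P = mo P g := rfl

theorem ddeg_modiv (g : Fin 3 → K) : ddeg (modiv (k := k) g) = - ht k g := by
  rw [ht_finset g (modiv (k := k) g).support (by
    intro P hP
    rw [Finsupp.mem_support_iff, modiv_apply]
    exact hP), neg_neg]
  unfold ddeg Finsupp.sum
  refine Finset.sum_congr rfl fun P _ => ?_
  change modiv g P * (P.deg : ℤ) = mo P g
  rw [deg_one, modiv_apply]
  simp

/-- Two generic combinations. -/
theorem exists_uv (g : Fin 3 → K) (hg : g ≠ 0) : ∃ α β : Fin 3 → k,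
    ∑ i, algebraMap k K (α i) * g i ≠ 0 ∧ ∑ i, algebraMap k K (β i) * g i ≠ 0 ∧
    ∀ P : Place k K, mo P g = P.ord (∑ i, algebraMap k K (α i) * g i) ∨
      mo P g = P.ord (∑ i, algebraMap k K (β i) * g i) := by
  classical
  obtain ⟨i₀, hi₀⟩ := Function.ne_iff.1 hg
  have hi₀' : g i₀ ≠ 0 := hi₀
  have hsing : ∀ i, ∑ j, algebraMap k K ((Pi.single i (1 : k) : Fin 3 → k) j) * g j = g i := by
    intro i
    rw [Finset.sum_eq_single i]
    · simp
    · intro b _ hb
      simp [Pi.single_eq_of_ne hb]
    · intro h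
      exact absurd (Finset.mem_univ _) h
  -- the linear map
  let Λ : (Fin 3 → k) →ₗ[k] K :=
    { toFun := fun β => ∑ i, algebraMap k K (β i) * g i
      map_add' := by
        intro a b
        rw [← Finset.sum_add_distrib]
        refine Finset.sum_congr rfl fun j _ => ?_
        rw [Pi.add_apply, map_add, add_mul]
      map_smul' := by
        intro r a
        rw [RingHom.id_apply, Finset.smul_sum]
        refine Finset.sum_congr rfl fun j _ => ?_
        rw [Pi.smul_apply, smul_eq_mul, map_mul, Algebra.smul_def, mul_assoc] }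
  have hΛ : ∀ β, Λ β = ∑ i, algebraMap k K (β i) * g i := fun _ => rfl
  set T : Finset (Place k K) := (mo_supp (k := k) g).toFinset ∪
    (finite_support (k := k) (g i₀)).toFinset with hT
  have hout : ∀ P, P ∉ T → mo P g = P.ord (g i₀) := by
    intro P hP
    simp only [hT, Finset.mem_union, Set.Finite.mem_toFinset, Set.mem_ofPred_eq, not_or,
      not_not] at hP
    rw [hP.1, hP.2]
  -- the subspaces
  let H : Option T → Submodule k (Fin 3 → k) := fun t =>
    match t with
    | none => LinearMap.ker Λ
    | some P =>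
      { carrier := {β | Ge P.1 (mo P.1 g + 1) (Λ β)}
        zero_mem' := by
          change Ge P.1 _ (Λ 0)
          rw [map_zero]
          exact Ge.zero
        add_mem' := by
          intro a b ha hb
          change Ge P.1 _ (Λ (a + b))
          rw [map_add]
          exact Ge.add ha hb
        smul_mem' := by
          intro c a ha
          change Ge P.1 _ (Λ (c • a))
          rw [map_smul, Algebra.smul_def]
          have := (Ge.const (P := P.1) c).mul ha
          rwa [zero_add] at this }
  have hne : ∀ t, H t ≠ ⊤ := by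
    intro t ht
    match t with
    | none =>
      have h1 : (Pi.single i₀ (1 : k) : Fin 3 → k) ∈ H none := by rw [ht]; trivial
      have h2 : Λ (Pi.single i₀ (1 : k)) = 0 := h1
      rw [hΛ, hsing] at h2
      exact hi₀' h2
    | some P =>
      obtain ⟨i, hi, e⟩ := exists_mo P.1 hg
      have h1 : (Pi.single i (1 : k) : Fin 3 → k) ∈ H (some P) := by rw [ht]; trivial
      have h2 : Ge P.1 (mo P.1 g + 1) (Λ (Pi.single i (1 : k))) := h1
      rw [hΛ, hsing] at h2
      have h3 := h2.resolve_left hi
      omega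
  obtain ⟨β, hβ⟩ : ∃ β, ∀ t, β ∉ H t := by
    by_contra hcon
    push Not at hcon
    obtain ⟨t, ht⟩ := Subspace.exists_eq_top_of_iUnion_eq_univ (p := H) (by
      rw [Set.iUnion_eq_univ_iff]
      exact hcon)
    exact hne t ht
  refine ⟨Pi.single i₀ 1, β, ?_, ?_, ?_⟩
  · rw [hsing]
    exact hi₀'
  · intro h0
    exact hβ none h0
  · intro P
    rw [hsing]
    by_cases hP : P ∈ T
    · right
      have h1 : ¬ Ge P (mo P g + 1) (Λ β) := hβ (some ⟨P, hP⟩)
      have h2 : Ge P (mo P g) (Λ β) := by
        rw [hΛ]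
        refine Ge.sum _ _ fun i _ => ?_
        have := (Ge.const (P := P) (β i)).mul (ge_mo P g i)
        rwa [zero_add] at this
      have h3 : Λ β ≠ 0 := fun h => h1 (Or.inl h)
      have h4 := h2.resolve_left h3
      have h5 : ¬ (mo P g + 1 ≤ P.ord (Λ β)) := fun h => h1 (Or.inr h)
      change mo P g = P.ord (Λ β)
      omega
    · left
      exact hout P hP

/-- The dimension of the space of the sums `∑ a i * g i`, where the `a i` have poles of order at
most `s` at `o`. -/
theorem finrank_eq (hRR : StmRR) {lam : k} {x y : K} (hE : Ell k K lam x y) (o : Place k K)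
    (s : ℕ) (g : Fin 3 → K) (hg : g ≠ 0) (hs : ht k g < s) (W : Submodule k K)
    (hW : ∀ f, f ∈ W ↔ ∃ a : Fin 3 → K, (∀ i, a i ∈ LL (Finsupp.single o (s : ℤ))) ∧
      f = ∑ i, a i * g i) :
    (finrank k W : ℤ) = s + ht k g := by
  have hh := ht_nonneg (k := k) g
  set L : Submodule k K := LL (Finsupp.single o (s : ℤ)) with hL
  have hdo : ddeg (Finsupp.single o (s : ℤ)) = s := by
    rw [ddeg_single, deg_one]
    simp
  have hLdim : (finrank k L : ℤ) = s := by
    have := hRR k K lam x y hE (Finsupp.single o (s : ℤ)) (by rw [hdo]; omega)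
    rw [hdo] at this
    exact this
  -- upper bound
  obtain ⟨D₁, hD₁⟩ : ∃ D₁ : Place k K →₀ ℤ, D₁ = Finsupp.single o (s : ℤ) - modiv g := ⟨_, rfl⟩
  have hWD : W ≤ LL D₁ := by
    intro f hf
    obtain ⟨a, ha, rfl⟩ := (hW f).1 hf
    have h2 : ∀ P : Place k K, Ge P (-(D₁ P)) (∑ i, a i * g i) := by
      intro P
      refine Ge.sum _ _ fun i _ => ?_
      have h3 : Ge P (-(Finsupp.single o (s : ℤ) P)) (a i) := by
        rcases ha i with h | h
        · exact Or.inl h
        · exact Or.inr (h P)
      have h4 := h3.mul (ge_mo P g i)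
      have e : -(D₁ P) = -(Finsupp.single o (s : ℤ) P) + mo P g := by
        rw [hD₁, Finsupp.sub_apply, modiv_apply]
        ring
      rw [e]
      exact h4
    by_cases h0 : ∑ i, a i * g i = 0
    · exact Or.inl h0
    · exact Or.inr fun P => (h2 P).resolve_left h0
  have hup : (finrank k W : ℤ) ≤ s + ht k g := by
    have h2 : ddeg D₁ = s + ht k g := by
      rw [hD₁, ddeg_sub, hdo, ddeg_modiv]
      ring
    have h3 := hRR k K lam x y hE D₁ (by rw [h2]; omega)
    rw [h2] at h3
    unfold ell at h3
    rw [← h3]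
    exact_mod_cast Submodule.finrank_mono hWD
  -- lower bound
  refine le_antisymm hup ?_
  have hWfin : FiniteDimensional k W := Submodule.finiteDimensional_of_le hWD
  obtain ⟨α, β, hu, hv, huv⟩ := exists_uv (k := k) g hg
  set u : K := ∑ i, algebraMap k K (α i) * g i with hud
  set v : K := ∑ i, algebraMap k K (β i) * g i with hvd
  let T : (L × L) →ₗ[k] K :=
    { toFun := fun p => p.1.1 * u + p.2.1 * v
      map_add' := by
        intro p q
        change (p.1.1 + q.1.1) * u + (p.2.1 + q.2.1) * v = _
        ring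
      map_smul' := by
        intro r p
        change (r • p.1.1) * u + (r • p.2.1) * v = r • (p.1.1 * u + p.2.1 * v)
        rw [smul_add, smul_mul_assoc, smul_mul_assoc] }
  have hT : ∀ p : L × L, T p = p.1.1 * u + p.2.1 * v := fun _ => rfl
  have hrange : LinearMap.range T ≤ W := by
    rintro f ⟨p, rfl⟩
    rw [hW]
    refine ⟨fun i => algebraMap k K (α i) * p.1.1 + algebraMap k K (β i) * p.2.1, ?_, ?_⟩
    · intro i
      change algebraMap k K (α i) * p.1.1 + algebraMap k K (β i) * p.2.1 ∈ L
      rw [← Algebra.smul_def, ← Algebra.smul_def]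
      exact L.add_mem (L.smul_mem _ p.1.2) (L.smul_mem _ p.2.2)
    · rw [hT, hud, hvd, Finset.mul_sum, Finset.mul_sum, ← Finset.sum_add_distrib]
      refine Finset.sum_congr rfl fun i _ => ?_
      ring
  obtain ⟨D₂, hD₂⟩ : ∃ D₂ : Place k K →₀ ℤ,
    D₂ = Finsupp.single o (s : ℤ) - divisor k u + modiv g := ⟨_, rfl⟩
  have hD2 : ddeg D₂ = s - ht k g := by
    rw [hD₂, ddeg_add, ddeg_sub, hdo, ddeg_modiv, ddeg_divisor]
    ring
  have hell := hRR k K lam x y hE D₂ (by rw [hD2]; omega)
  rw [hD2] at hell
  unfold ell at hell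
  -- the kernel
  have hmem : ∀ p : LinearMap.ker T, p.1.2.1 ∈
      LL D₂ := by
    intro p
    have h1 : p.1.1.1 * u + p.1.2.1 * v = 0 := p.2
    by_cases hb : p.1.2.1 = 0
    · exact Or.inl hb
    · right
      intro P
      have ha : p.1.1.1 ≠ 0 := by
        intro h0
        rw [h0, zero_mul, zero_add] at h1
        rcases mul_eq_zero.1 h1 with h | h
        · exact hb h
        · exact hv h
      have h2 : p.1.1.1 * u = -(p.1.2.1 * v) := eq_neg_of_add_eq_zero_left h1
      have h3 : P.ord p.1.1.1 + P.ord u = P.ord p.1.2.1 + P.ord v := by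
        rw [← P.ord_mul ha hu, ← P.ord_mul hb hv, h2, P.ord_neg]
      have h4 := (p.1.1.2.resolve_left ha) P
      have h5 := (p.1.2.2.resolve_left hb) P
      rw [hD₂, Finsupp.add_apply, Finsupp.sub_apply, modiv_apply, divisor_apply]
      rcases huv P with h | h <;> omega
  let κ : LinearMap.ker T →ₗ[k] LL D₂ :=
    { toFun := fun p => ⟨p.1.2.1, hmem p⟩
      map_add' := fun _ _ => rfl
      map_smul' := fun _ _ => rfl }
  have hκ : Function.Injective κ := by
    intro p q hpq
    have h1 : p.1.2.1 = q.1.2.1 := congrArg (fun z : LL D₂ => (z : K)) hpq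
    have h2 : p.1.1.1 * u + p.1.2.1 * v = 0 := p.2
    have h3 : q.1.1.1 * u + q.1.2.1 * v = 0 := q.2
    rw [h1] at h2
    have h4 : p.1.1.1 * u = q.1.1.1 * u := by
      rw [eq_neg_of_add_eq_zero_left h2, eq_neg_of_add_eq_zero_left h3]
    have h5 : p.1.1.1 = q.1.1.1 := mul_right_cancel₀ hu h4
    apply Subtype.ext
    exact Prod.ext (Subtype.ext h5) (Subtype.ext h1)
  have h1 : (finrank k (LinearMap.ker T) : ℤ) ≤ s - ht k g := by
    rw [← hell]
    exact_mod_cast LinearMap.finrank_le_finrank_of_injective hκ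
  have h2 := LinearMap.finrank_range_add_finrank_ker T
  have h3 : finrank k (L × L) = finrank k L + finrank k L := Module.finrank_prod
  have h4 : (finrank k (LinearMap.range T) : ℤ) ≤ finrank k W := by
    exact_mod_cast Submodule.finrank_mono hrange
  omega

end

end Pool.Agent.Y434.DP
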