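import Pool.Agent.Y166.DP.Stm

/-! Structure constants of the multiplication in the basis `fn`. -/

set_option autoImplicit false
set_option linter.unusedSectionVars false

namespace Pool.Agent.Y434.DP

open MvPolynomial Pool.Agent.Y166.DP

section
variable {k K : Type} [Field k] [Field K] [Algebra k K]

theorem fsum_add (x y : K) {N : ℕ} (a b : Fin N → k) :
    fsum x y (a + b) = fsum x y a + fsum x y b := by
  unfold fsum
  rw [← Finset.sum_add_distrib]
  refine Finset.sum_congr rfl fun j _ => ?_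
  rw [Pi.add_apply, map_add, add_mul]

theorem fsum_smul (x y : K) {N : ℕ} (r : k) (a : Fin N → k) :
    fsum x y (r • a) = algebraMap k K r * fsum x y a := by
  unfold fsum
  rw [Finset.mul_sum]
  refine Finset.sum_congr rfl fun j _ => ?_
  rw [Pi.smul_apply, smul_eq_mul, map_mul, mul_assoc]

/-- `fsum` as a linear map -/
noncomputable def fl (x y : K) (N : ℕ) : (Fin N → k) →ₗ[k] K where
  toFun a := fsum x y a
  map_add' := fsum_add x y
  map_smul' r a := by rw [fsum_smul, RingHom.id_apply, Algebra.smul_def]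

theorem fl_apply (x y : K) {N : ℕ} (a : Fin N → k) : fl x y N a = fsum x y a := rfl

end

section
variable {k₀ : Type} [Field k₀]

/-- A combination of the functions `fn` with coefficients in the small field. -/
def cmb (k₀ : Type) [Field k₀] (k K : Type) [Field k] [Field K] [Algebra k K] [Algebra k₀ k]
    (x y : K) {N : ℕ} (γ : Fin N → k₀) : K := fsum x y (fun m => algebraMap k₀ k (γ m))

variable {k K : Type} [Field k] [Field K] [Algebra k K] [Algebra k₀ k]

theorem cmb_add (x y : K) {N : ℕ} (a b : Fin N → k₀) :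
    cmb k₀ k K x y (a + b) = cmb k₀ k K x y a + cmb k₀ k K x y b := by
  unfold cmb
  rw [← fsum_add]
  congr 1
  funext m
  rw [Pi.add_apply, Pi.add_apply, map_add]

theorem cmb_smul (x y : K) {N : ℕ} (r : k₀) (a : Fin N → k₀) :
    cmb k₀ k K x y (r • a) = algebraMap k K (algebraMap k₀ k r) * cmb k₀ k K x y a := by
  unfold cmb
  rw [← fsum_smul]
  congr 1
  funext m
  rw [Pi.smul_apply, Pi.smul_apply, smul_eq_mul, smul_eq_mul, map_mul]

open Classical in
theorem cmb_single (x y : K) {N : ℕ} (m : Fin N) :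
    cmb k₀ k K x y (Pi.single m 1) = fn x y m := by
  unfold cmb fsum
  rw [Finset.sum_eq_single m]
  · simp
  · intro b _ hb
    simp [Pi.single_eq_of_ne hb]
  · intro h
    exact absurd (Finset.mem_univ _) h

end

/-- the index of `x ^ a` -/
def ix (a : ℕ) : ℕ := 2 * a - 1

theorem fn_ix {A : Type} [CommRing A] (x y : A) (a : ℕ) : fn x y (ix a) = x ^ a := by
  unfold fn ix
  rcases Nat.eq_zero_or_pos a with rfl | h
  · simp
  · rw [if_neg (by omega), if_pos (by omega)]
    congr 1
    omega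

theorem fn_iy {A : Type} [CommRing A] (x y : A) (b : ℕ) : fn x y (2 * b + 2) = x ^ b * y := by
  unfold fn
  rw [if_neg (by omega), if_neg (by omega)]
  congr 2
  omega

/-- every index is one of the two kinds -/
theorem fn_cases (j : ℕ) : (∃ a, j = ix a) ∨ ∃ b, j = 2 * b + 2 := by
  rcases Nat.even_or_odd' j with ⟨c, h | h⟩
  · rcases Nat.eq_zero_or_pos c with rfl | hc
    · left; exact ⟨0, by simpa [ix] using h⟩
    · right; exact ⟨c - 1, by omega⟩
  · left; exact ⟨c + 1, by unfold ix; omega⟩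

/-- Structure constants. -/
theorem fn_mul (k₀ : Type) [Field k₀] (lam : k₀) (l j N : ℕ) (h : l + j + 2 ≤ N) :
    ∃ γ : Fin N → k₀, ∀ (k K : Type) [Field k] [Field K] [Algebra k K] [Algebra k₀ k] (x y : K),
      Ell k K (algebraMap k₀ k lam) x y → fn x y l * fn x y j = cmb k₀ k K x y γ := by
  classical
  rcases fn_cases l with ⟨a, rfl⟩ | ⟨b, rfl⟩ <;> rcases fn_cases j with ⟨a', rfl⟩ | ⟨b', rfl⟩
  · have h1 : ix (a + a') < N := by unfold ix at *; omega
    refine ⟨Pi.single ⟨ix (a + a'), h1⟩ 1, ?_⟩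
    intro k K _ _ _ _ x y _
    rw [cmb_single, fn_ix, fn_ix, fn_ix, pow_add]
  · have h1 : 2 * (a + b') + 2 < N := by unfold ix at *; omega
    refine ⟨Pi.single ⟨2 * (a + b') + 2, h1⟩ 1, ?_⟩
    intro k K _ _ _ _ x y _
    rw [cmb_single, fn_ix, fn_iy, fn_iy, pow_add]
    ring
  · have h1 : 2 * (b + a') + 2 < N := by unfold ix at *; omega
    refine ⟨Pi.single ⟨2 * (b + a') + 2, h1⟩ 1, ?_⟩
    intro k K _ _ _ _ x y _
    rw [cmb_single, fn_ix, fn_iy, fn_iy, pow_add]
    ring
  · have h1 : ix (b + b' + 3) < N := by unfold ix; omega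
    have h2 : ix (b + b' + 2) < N := by unfold ix; omega
    have h3 : ix (b + b' + 1) < N := by unfold ix; omega
    refine ⟨Pi.single ⟨ix (b + b' + 3), h1⟩ 1 + ((-(1 + lam)) • Pi.single ⟨ix (b + b' + 2), h2⟩ 1 +
      lam • Pi.single ⟨ix (b + b' + 1), h3⟩ 1), ?_⟩
    intro k K _ _ _ _ x y hE
    rw [cmb_add, cmb_add, cmb_smul, cmb_smul, cmb_single, cmb_single, cmb_single, fn_ix, fn_ix,
      fn_ix, fn_iy, fn_iy]
    have := hE.eqn
    simp only [map_neg, map_add, map_one]
    calc x ^ b * y * (x ^ b' * y) = x ^ (b + b') * y ^ 2 := by ring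
      _ = _ := by rw [this]; ring

end Pool.Agent.Y434.DP
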