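import Pool.Agent.Y434.DP.Minor
import Pool.Agent.Y434.DP.Mul
import Pool.Agent.Y434.DP.Geo

/-! The height is lower semicontinuous, uniformly in the field. -/

set_option autoImplicit false
set_option linter.unusedSectionVars false

namespace Pool.Agent.Y434.DP

open MvPolynomial FF Pool.Agent.W603.LV Pool.Agent.Y166.DP Module

/-- The matrix of the multiplication, with polynomial entries. -/
noncomputable def MP {k₀ : Type} [Field k₀] {d : ℕ}
    (γ : Fin (d + 2) → Fin (d + 1) → Fin (2 * d + 3) → k₀) :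
    Matrix (Fin (2 * d + 3)) (Fin 3 × Fin (d + 2)) (MvPolynomial (Fin 3 × Fin (d + 1)) k₀) :=
  fun m p => ∑ j, C (γ p.2 j m) * X (p.1, j)

section
variable {k₀ k K : Type} [Field k₀] [Field k] [Field K] [Algebra k K] [Algebra k₀ k] {d : ℕ}

theorem MP_col (γ : Fin (d + 2) → Fin (d + 1) → Fin (2 * d + 3) → k₀) (x y : K)
    (hγ : ∀ (l : Fin (d + 2)) (j : Fin (d + 1)),
      fn x y l * fn x y j = cmb k₀ k K x y (γ l j))
    (c : Fin 3 × Fin (d + 1) → k) (p : Fin 3 × Fin (d + 2)) :
    fl x y (2 * d + 3) (((MP γ).map (aeval c)).col p) =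
      fn x y p.2 * fsum x y fun j => c (p.1, j) := by
  have h1 : ((MP γ).map (aeval c)).col p = ∑ j, c (p.1, j) • fun m =>
      algebraMap k₀ k (γ p.2 j m) := by
    funext m
    rw [Finset.sum_apply]
    change aeval c (∑ j, C (γ p.2 j m) * X (p.1, j)) = _
    rw [map_sum]
    refine Finset.sum_congr rfl fun j _ => ?_
    rw [map_mul, aeval_C, aeval_X, Pi.smul_apply, smul_eq_mul, mul_comm]
  rw [h1, map_sum]
  conv_rhs => unfold fsum
  rw [Finset.mul_sum]
  refine Finset.sum_congr rfl fun j _ => ?_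
  rw [map_smul, fl_apply, Algebra.smul_def]
  have h2 := hγ p.2 j
  unfold cmb at h2
  rw [← h2]
  ring

theorem MP_mulVec (γ : Fin (d + 2) → Fin (d + 1) → Fin (2 * d + 3) → k₀) (x y : K)
    (hγ : ∀ (l : Fin (d + 2)) (j : Fin (d + 1)),
      fn x y l * fn x y j = cmb k₀ k K x y (γ l j))
    (c : Fin 3 × Fin (d + 1) → k) (a : Fin 3 × Fin (d + 2) → k) :
    fl x y (2 * d + 3) (((MP γ).map (aeval c)).mulVec a) =
      ∑ i, (fsum x y fun l => a (i, l)) * fsum x y fun j => c (i, j) := by
  have h1 : ((MP γ).map (aeval c)).mulVec a = ∑ p, a p • ((MP γ).map (aeval c)).col p := by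
    funext m
    rw [Finset.sum_apply]
    unfold Matrix.mulVec dotProduct
    refine Finset.sum_congr rfl fun p _ => ?_
    rw [Pi.smul_apply, smul_eq_mul, mul_comm]
    rfl
  rw [h1, map_sum, Fintype.sum_prod_type]
  refine Finset.sum_congr rfl fun i _ => ?_
  conv_rhs => rw [fsum, Finset.sum_mul]
  refine Finset.sum_congr rfl fun l _ => ?_
  rw [map_smul, MP_col γ x y hγ, Algebra.smul_def, mul_assoc]

end

/-- DP-RK. -/
theorem stmRK : StmInf → StmNo1 → StmBasis → StmRR → StmRK := by
  intro hInf _ hB hRR k₀ _ lam d e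
  have hex : ∀ (l : Fin (d + 2)) (j : Fin (d + 1)), ∃ γ : Fin (2 * d + 3) → k₀,
      ∀ (k K : Type) [Field k] [Field K] [Algebra k K] [Algebra k₀ k] (x y : K),
      Ell k K (algebraMap k₀ k lam) x y → fn x y l * fn x y j = cmb k₀ k K x y γ := by
    intro l j
    exact fn_mul k₀ lam l j (2 * d + 3) (by have := l.2; have := j.2; omega)
  choose γ hγ using hex
  refine ⟨{F | ∃ (f : Fin (d + 2 + e) → Fin (2 * d + 3))
    (q : Fin (d + 2 + e) → Fin 3 × Fin (d + 2)), F = ((MP γ).submatrix f q).det}, ?_⟩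
  intro k K _ _ _ _ _ _ _ x y hE c hc
  obtain ⟨o, ho1, -, -⟩ := hInf k K _ x y hE
  obtain ⟨-, hinj, hbas⟩ := hB k K _ x y hE o (by omega)
  set g : Fin 3 → K := fun i => fsum x y fun j => c (i, j) with hg
  have hγ' : ∀ (l : Fin (d + 2)) (j : Fin (d + 1)),
      fn x y l * fn x y j = cmb k₀ k K x y (γ l j) := fun l j =>
    hγ l j k K x y hE
  -- g is nonzero
  have hg0 : g ≠ 0 := by
    intro h0
    apply hc
    funext p
    have h1 : (fsum x y fun j => c (p.1, j)) = 0 := congrFun h0 p.1
    exact congrFun (hinj _ _ h1) p.2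
  -- bound for the height
  have hht : ht k g ≤ d + 1 := by
    classical
    have h1 : ∀ i, (∀ P, P ≠ o → Ge P 0 (g i)) ∧ Ge o (-((d + 1 : ℕ) : ℤ)) (g i) := by
      intro i
      exact (hbas (d + 1) (by omega) (g i)).2 ⟨_, rfl⟩
    have h2 : ∀ P, P ≠ o → 0 ≤ mo P g := fun P hP => le_mo P hg0 fun i => (h1 i).1 P hP
    have h3 : -((d + 1 : ℕ) : ℤ) ≤ mo o g := le_mo o hg0 fun i => (h1 i).2
    rw [ht_finset g (insert o (mo_supp (k := k) g).toFinset) (by intro P hP; simp [hP])]
    have h4 : mo o g ≤ ∑ P ∈ insert o (mo_supp (k := k) g).toFinset, mo P g := by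
      rw [← Finset.add_sum_erase _ _ (Finset.mem_insert_self o _)]
      have : 0 ≤ ∑ P ∈ (insert o (mo_supp (k := k) g).toFinset).erase o, mo P g :=
        Finset.sum_nonneg fun P hP => h2 P (Finset.ne_of_mem_erase hP)
      omega
    push_cast at h3
    omega
  -- the rank
  set A := (MP γ).map (aeval c) with hA
  have hflinj : Function.Injective (fl (k := k) x y (2 * d + 3)) := by
    refine (injective_iff_map_eq_zero _).2 fun a ha => ?_
    exact hinj _ a ha
  have hrank : (A.rank : ℤ) = (d + 2 : ℕ) + ht k g := by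
    have h1 : A.rank = finrank k (LinearMap.range (fl (k := k) x y (2 * d + 3) ∘ₗ A.mulVecLin)) := by
      rw [LinearMap.range_comp]
      exact (Submodule.equivMapOfInjective _ hflinj _).finrank_eq
    rw [h1]
    refine finrank_eq hRR hE o (d + 2) g hg0 (by push_cast; omega) _ ?_
    intro f
    have hL : ∀ a : K, a ∈ LL (Finsupp.single o ((d + 2 : ℕ) : ℤ)) ↔
        ∃ b : Fin (d + 2) → k, a = fsum x y b := by
      intro a
      rw [← hbas (d + 2) (by omega) a]
      constructor
      · rintro (h | h)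
        · rw [h]
          exact ⟨fun P _ => Ge.zero, Ge.zero⟩
        · refine ⟨fun P hP => Or.inr ?_, Or.inr ?_⟩
          · have := h P
            rw [Finsupp.single_eq_of_ne hP] at this
            simpa using this
          · have := h o
            rwa [Finsupp.single_eq_same] at this
      · rintro ⟨h1, h2⟩
        by_cases h0 : a = 0
        · exact Or.inl h0
        · right
          intro P
          by_cases hP : P = o
          · rw [hP, Finsupp.single_eq_same]
            exact h2.resolve_left h0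
          · rw [Finsupp.single_eq_of_ne hP]
            simpa using (h1 P hP).resolve_left h0
    rw [LinearMap.mem_range]
    constructor
    · rintro ⟨a, rfl⟩
      refine ⟨fun i => fsum x y fun l => a (i, l), fun i => (hL _).2 ⟨_, rfl⟩, ?_⟩
      exact MP_mulVec γ x y hγ' c a
    · rintro ⟨b, hb, rfl⟩
      choose a ha using fun i => (hL (b i)).1 (hb i)
      refine ⟨fun p => a p.1 p.2, ?_⟩
      refine (MP_mulVec γ x y hγ' c _).trans ?_
      refine Finset.sum_congr rfl fun i _ => ?_
      rw [ha i]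
  have h5 : (e : ℤ) ≤ ht k g ↔ d + 2 + e ≤ A.rank := by
    have : ((d + 2 + e : ℕ) : ℤ) ≤ (A.rank : ℤ) ↔ d + 2 + e ≤ A.rank := Nat.cast_le
    rw [← this, hrank]
    push_cast
    constructor <;> intro h <;> linarith
  have h6 : ∀ (f : Fin (d + 2 + e) → Fin (2 * d + 3))
      (q : Fin (d + 2 + e) → Fin 3 × Fin (d + 2)),
      aeval c ((MP γ).submatrix f q).det = (A.submatrix f q).det := by
    intro f q
    rw [AlgHom.map_det]
    congr 1
  rw [h5, le_rank_iff]
  constructor
  · rintro ⟨F, ⟨f, q, rfl⟩, h⟩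
    exact ⟨f, q, by rw [← h6]; exact h⟩
  · rintro ⟨f, q, h⟩
    exact ⟨_, ⟨f, q, rfl⟩, by rw [h6]; exact h⟩

end Pool.Agent.Y434.DP
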