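import Mathlib

/-! Rank and nonzero minors. -/

set_option autoImplicit false

namespace Pool.Agent.Y434.DP

open Matrix Module

theorem le_rank_iff {m n F : Type} [Fintype m] [Fintype n] [Field F] (A : Matrix m n F) (r : ℕ) :
    r ≤ A.rank ↔ ∃ (f : Fin r → m) (g : Fin r → n), (A.submatrix f g).det ≠ 0 := by
  constructor
  · intro h
    rw [Matrix.rank_eq_finrank_span_cols] at h
    obtain ⟨c, hc1, -, hc2⟩ := Submodule.exists_fun_fin_finrank_span_eq F (Set.range A.col)
    choose g0 hg0 using hc1
    set g : Fin r → n := fun i => g0 (Fin.castLE h i) with hg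
    have hcol : LinearIndependent F (A.submatrix id g).col := by
      have h1 : (A.submatrix id g).col = c ∘ Fin.castLE h := by
        funext i
        rw [Function.comp_apply, ← hg0]
        rfl
      rw [h1]
      exact hc2.comp _ (Fin.castLE_injective h)
    have hr : (A.submatrix id g).rank = r := by
      rw [Matrix.rank_eq_finrank_span_cols, finrank_span_eq_card hcol, Fintype.card_fin]
    have hr2 := hr
    rw [Matrix.rank_eq_finrank_span_row] at hr2
    obtain ⟨c', hc1', -, hc2'⟩ :=
      Submodule.exists_fun_fin_finrank_span_eq F (Set.range (A.submatrix id g).row)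
    choose f0 hf0 using hc1'
    set f : Fin r → m := fun i => f0 (Fin.cast hr2.symm i) with hf
    refine ⟨f, g, ?_⟩
    have hrow : LinearIndependent F (A.submatrix f g).row := by
      have h1 : (A.submatrix f g).row = c' ∘ Fin.cast hr2.symm := by
        funext i
        rw [Function.comp_apply, ← hf0]
        rfl
      rw [h1]
      exact hc2'.comp _ (Fin.cast_injective _)
    rw [Matrix.linearIndependent_rows_iff_isUnit, Matrix.isUnit_iff_isUnit_det] at hrow
    exact hrow.ne_zero
  · rintro ⟨f, g, h⟩
    have h1 := Matrix.rank_submatrix_le A f g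
    rwa [Matrix.rank_of_det_ne_zero h, Fintype.card_fin] at h1

end Pool.Agent.Y434.DP
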